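import Pool.Agent.Helper40.KZ.VL

/-!
# Amitsur's trick
-/

set_option autoImplicit false

namespace Pool.Agent.Helper40.KZ

open Pool.Agent.Helper91.KZ Polynomial TensorProduct

universe u

theorem st_AMI (hDET : ST_DET.{u}) : ST_AMI.{u} := by
  intro K A _ _ _ _ z hA
  by_contra hcon
  push Not at hcon
  have hex : ∀ n : ℕ, ∃ f : Fin n → (A →ₗ[K] K),
      (Matrix.of fun i (j : Fin n) => fp (f i) (z ^ (j : ℕ))).det ≠ 0 := by
    intro n
    refine hDET K A n (fun j => z ^ (j : ℕ)) (indep z _ fun Q _ h0 => ?_)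
    by_contra hQ
    exact hcon Q hQ h0
  choose f hf using hex
  have hS : (⋃ n, {l : K | ((Matrix.of fun i (j : Fin n) =>
      fp (f n i) (z ^ (j : ℕ))).det).IsRoot l}).Countable :=
    Set.countable_iUnion fun n => (finite_setOf_isRoot (hf n)).countable
  have hl : ∃ l : K, l ∉ ⋃ n, {l : K | ((Matrix.of fun i (j : Fin n) =>
      fp (f n i) (z ^ (j : ℕ))).det).IsRoot l} := by
    by_contra hall
    push Not at hall
    exact Set.not_countable_univ (hS.mono fun l _ => hall l)
  obtain ⟨l, hl⟩ := hl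
  have hint := hA (vl l z)
  refine minpoly.ne_zero hint (nondeg z ((minpoly K (vl l z)).natDegree + 1) (f _) l ?_ _
    (Nat.lt_succ_self _) (minpoly.aeval K _))
  intro h0
  exact hl (Set.mem_iUnion.2 ⟨_, h0⟩)

end Pool.Agent.Helper40.KZ
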