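import Mathlib
import Pool.Agent.Helper40.IZ.Pub

/-!
Definitions used in the statement on isometric extensions of uniquely ergodic skew products.
-/

open MeasureTheory

namespace Pool.Agent.Helper40.KZP

open Pool.Agent.Helper16.CZP (Base)
open Pool.Agent.Helper40.DZP (ZeroEnt)
open Pool.Agent.Helper40.IZP (FibreCts)

/-- `S` is of the form `(x, k) ↦ (x + θ, k + f x)` on a torus (`x` are the coordinates in a set `B`
and `k` are the other coordinates of a point; `f` is continuous since `S` is continuous), and any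
two probability measures which are invariant under `S` are equal -/
def Skew {n : ℕ} (S : C(UnitAddTorus (Fin n), UnitAddTorus (Fin n))) : Prop :=
  (∃ (B : Set (Fin n)) (θ : UnitAddTorus (Fin n)),
    (∀ x, ∀ i ∈ B, S x i = x i + θ i) ∧
    ∀ x y : UnitAddTorus (Fin n), (∀ j ∈ B, x j = y j) → ∀ i, S x i - x i = S y i - y i) ∧
  ∀ (ν ν' : Measure (UnitAddTorus (Fin n))) [IsProbabilityMeasure ν] [IsProbabilityMeasure ν'],
    MeasurePreserving S ν ν → MeasurePreserving S ν' ν' → ν = ν'

/-- the hypotheses on `S`, the map `T` of `X` and the function `F` on `X` -/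
def Adm {X : Type} [TopologicalSpace X] {r : ℕ} (π : X → UnitAddTorus (Fin r))
    (S : C(UnitAddTorus (Fin r), UnitAddTorus (Fin r))) (T : X → X) (F : X → ℂ) : Prop :=
  ((Base S ∨ Skew S) ∧ FibreCts π T ∧ FibreCts π F ∧ ∃ C : ℝ, ∀ x, ‖F x‖ ≤ C) ∨
  (ZeroEnt S ∧ Continuous T ∧ Continuous F)

end Pool.Agent.Helper40.KZP
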