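import Pool.Agent.Helper40.KZ.Defs
import Pool.Agent.Helper40.KZ.Pub

/-!
Two continuous levels with a torus as the fibre: statements of the modules (MP_7a8f48_an).
The modules TOR TCH ERG MPZ POW COB PUR MSF PRJ PRB RTM NRT LCH EVC QBZ LMF of the sheet JZ are
used for functions with values in the circle.
-/

open Finset Filter MeasureTheory Topology
open scoped ComplexConjugate InnerProductSpace

namespace Pool.Agent.Helper40.KZ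

open Pool.Agent.Helper16.AZ (T E Op mm fc Ind)
open Pool.Agent.Helper16.BZ (co Wk EE ff EQ)
open Pool.Agent.Helper16.MD (MS PB Am RW Rich)
open Pool.Agent.Helper40.DZ (RI UR SK Good3)
open Pool.Agent.Helper40.JZ (U cs tor Lift pj ms chi vz LM StrP)
open UnitAddTorus (mFourier)

/-! ## Block R: resonances of two functions with values in the circle -/

/-- LFR: a resonance gives a lift. -/
def ST_LFR5 : Prop := ∀ (r : ℕ) (θ : T r) (F F' : T r → U), Ind θ → Continuous F →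
  Continuous F' → ∀ (p q : ℕ) (x₀ : T r) (u : T r → U), p.Prime → q.Prime → p ≠ q →
  Rs θ F F' p q x₀ u →
  ∃ D : T r → T r → U, Lift θ F q 1 D ∧
    ∀ σ ∈ tor r q, ∀ᵐ z ∂(mm r), u (z + σ) = D (p • σ) (x₀ + p • z) + u z

/-- KUR: a resonance of a function which is cohomologous to a constant. -/
def ST_KUR : Prop := ∀ (r s : ℕ) (θ : T r) (f : T r → T s), Ind θ → Continuous f → N0 θ f →
  ∀ (p q : ℕ) (x₀ : T r) (a b : Fin s → ℤ) (u : T r → U), p.Prime → q.Prime → p ≠ q →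
  Rs θ (fa f a) (fa f b) p q x₀ u → Kc θ (fa f a) → ∀ i, (q : ℤ) ∣ a i

/-- PUR: there is no resonance with one side only. -/
def ST_PUR5 : Prop := ∀ (r s : ℕ) (θ : T r) (f : T r → T s), Ind θ → Continuous f → N0 θ f →
  ∀ (p q : ℕ) (x₀ : T r) (a b : Fin s → ℤ) (u : T r → U), 1 ≤ p → 1 ≤ q →
  Rs θ (fa f a) (fa f b) p q x₀ u → (a = 0 ↔ b = 0)

/-! ## Block F: Fourier coefficients in the last coordinates -/

/-- FIB: Parseval's formula. -/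
def ST_FIB5 : Prop := ∀ r s : ℕ,
  MeasurePreserving (fun z : T r × T s => sn z.1 z.2) ((mm r).prod (mm s)) (mm (r + s)) ∧
  ∀ G : T (r + s) → ℂ, MemLp G 2 (mm (r + s)) →
    (∀ a : Fin s → ℤ, MemLp (fib G a) 2 (mm r)) ∧
    HasSum (fun a : Fin s → ℤ => ∫ x, ‖fib G a x‖ ^ 2 ∂(mm r))
      (∫ y, ‖G y‖ ^ 2 ∂(mm (r + s))) ∧
    ∫ y, G y ∂(mm (r + s)) = ∫ x, fib G 0 x ∂(mm r) ∧
    ∀ (θ : T r) (f : T r → T s), Measurable f → ∀ a : Fin s → ℤ, ∀ᵐ x ∂(mm r),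
      fib (fun y => G (SA θ f y)) a x = fourier 1 (fa f a x) * fib G a (x + θ)

/-- NTF: elementary properties of the masses. -/
def ST_NTF5 : Prop := ∀ (r s : ℕ) (θ : T r) (f : T r → T s) (q : ℕ) (t : TY r s)
  (G G' : T (r + s) → ℂ), 1 ≤ q → Measurable f → OK θ f q t → MemLp G 2 (mm (r + s)) →
  MemLp G' 2 (mm (r + s)) →
  ‖∫ y, G y ∂(mm (r + s))‖ ^ 2 ≤ NT q t G ∧ NT q t G ≤ ∫ y, ‖G y‖ ^ 2 ∂(mm (r + s)) ∧
  (Summable fun a : t.1 => ms q (t.2 (a : Fin s → ℤ)) 1 (fib G (a : Fin s → ℤ))) ∧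
  NT q t (fun y => G (SA θ f y)) = NT q t G ∧
  Real.sqrt (NT q t G - ‖∫ y, G y ∂(mm (r + s))‖ ^ 2) ≤
    Real.sqrt (NT q t G' - ‖∫ y, G' y ∂(mm (r + s))‖ ^ 2) +
    Real.sqrt (∫ y, ‖G y - G' y‖ ^ 2 ∂(mm (r + s)))

/-! ## Block J: joinings -/

/-- MPA: the skew product preserves the measure and is a homeomorphism. -/
def ST_MPA5 : Prop := ∀ (r s : ℕ) (θ : T r) (f : T r → T s), Continuous f →
  MeasurePreserving (SA θ f) (mm (r + s)) (mm (r + s)) ∧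
  ∃ S : T (r + s) ≃ₜ T (r + s), ∀ y, S y = SA θ f y

/-- EQA: all orbits of all powers are equidistributed. -/
def ST_EQA5 : Prop := ∀ (r s : ℕ) (θ : T r) (f : T r → T s), Ind θ → Continuous f → N0 θ f →
  EQ (SA θ f) (mm (r + s))

/-- JTP: joinings for functions with finitely many Fourier coefficients in the last variables. -/
def ST_JTP5 : Prop := ∀ (r s : ℕ) (θ : T r) (f : T r → T s), Ind θ → Continuous f →
  ∀ (p q : ℕ) (y₀ : T (r + s)) (A A' : Finset (Fin s → ℤ)) (g g' : (Fin s → ℤ) → T r → ℂ)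
  (R : Finset ((Fin s → ℤ) × (Fin s → ℤ))) (w : (Fin s → ℤ) → (Fin s → ℤ) → T r → U),
  1 ≤ p → 1 ≤ q → (∀ a, Continuous (g a)) → (∀ a, Continuous (g' a)) →
  R ⊆ A ×ˢ A' →
  (∀ c ∈ R, Rs θ (fa f c.1) (fa f c.2) p q (ini y₀) (w c.1 c.2)) →
  (∀ c ∈ A ×ˢ A', c ∉ R → ∀ u : T r → U, ¬ Rs θ (fa f c.1) (fa f c.2) p q (ini y₀) u) →
  ∀ ε : ℝ, 0 < ε → ∀ᶠ M : ℕ in atTop,
  ‖∑ n ∈ Icc 1 M, (∑ a ∈ A, g a (ini ((SA θ f)^[p * n] y₀)) *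
      mFourier a (las ((SA θ f)^[p * n] y₀))) *
    conj (∑ b ∈ A', g' b (ini ((SA θ f)^[q * n] y₀)) *
      mFourier b (las ((SA θ f)^[q * n] y₀)))‖ ≤
    ((∑ c ∈ R, ‖∫ z, fourier 1 (w c.1 c.2 z) * (g c.1 (ini y₀ + p • z) *
      conj (g' c.2 (ini y₀ + q • z))) ∂(mm r)‖) + ε) * M

/-- RES: bound for all correlations of the powers `p` and `q`. -/
def ST_RES5 : Prop := ∀ (r s : ℕ) (θ : T r) (f : T r → T s), Ind θ → Continuous f → N0 θ f →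
  ∀ (p q : ℕ) (y₀ : T (r + s)), p.Prime → q.Prime → p ≠ q →
  ∃ t t' : TY r s, OK θ f q t ∧ OK θ f p t' ∧
  ∀ G G' : T (r + s) → ℂ, RI G → RI G' →
  ∀ ε : ℝ, 0 < ε → ∀ᶠ M : ℕ in atTop,
  ‖∑ n ∈ Icc 1 M, G ((SA θ f)^[p * n] y₀) * conj (G' ((SA θ f)^[q * n] y₀))‖ ≤
    (‖∫ y, G y ∂(mm (r + s))‖ * ‖∫ y, G' y ∂(mm (r + s))‖ +
      Real.sqrt (NT q t G - ‖∫ y, G y ∂(mm (r + s))‖ ^ 2) *
      Real.sqrt (NT p t' G' - ‖∫ y, G' y ∂(mm (r + s))‖ ^ 2) + ε) * M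

/-! ## Block K: kernels -/

/-- HAR: the Haar measure of the annihilator of a group of characters. -/
def ST_HAR : Prop := ∀ (s : ℕ) (A : AddSubgroup (Fin s → ℤ)),
  ∃ ν : Measure (T s), IsProbabilityMeasure ν ∧ ∀ b : Fin s → ℤ,
    (b ∈ A → ∫ k, (mFourier b k : ℂ) ∂ν = 1) ∧ (b ∉ A → ∫ k, (mFourier b k : ℂ) ∂ν = 0)

/-- SEL: the lifts of a type come from a measurable function with values in the fibre. -/
def ST_SEL : Prop := ∀ (r s : ℕ) (θ : T r) (f : T r → T s) (q : ℕ) (t : TY r s), 1 ≤ q →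
  OK θ f q t → ∃ κ : T r → T r → T s, (∀ σ ∈ tor r q, Measurable (κ σ)) ∧
    ∀ a ∈ t.1, ∀ σ ∈ tor r q, ∀ᵐ x ∂(mm r), chi a (κ σ x) = t.2 a σ x

/-- MTR: the mass of a type as an average of correlations with measure preserving maps. -/
def ST_MTR5 : Prop := ∀ (r s : ℕ) (θ : T r) (f : T r → T s) (q : ℕ) (t : TY r s)
  (κ : T r → T r → T s) (ν : Measure (T s)) (G : T (r + s) → ℂ), 1 ≤ q → OK θ f q t →
  (∀ σ ∈ tor r q, Measurable (κ σ)) →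
  (∀ a ∈ t.1, ∀ σ ∈ tor r q, ∀ᵐ x ∂(mm r), chi a (κ σ x) = t.2 a σ x) →
  IsProbabilityMeasure ν → (∀ b : Fin s → ℤ, (b ∈ t.1 → ∫ k, (mFourier b k : ℂ) ∂ν = 1) ∧
    (b ∉ t.1 → ∫ k, (mFourier b k : ℂ) ∂ν = 0)) → RI G →
  ((NT q t G : ℝ) : ℂ) = (∑ σ ∈ tor r q,
    ∫ z : T (r + s) × T s, G (sn (ini z.1 + σ) (las z.1 + (κ σ (ini z.1) + z.2))) *
      conj (G z.1) ∂((mm (r + s)).prod ν)) / (q : ℂ) ^ r

/-- SKN: the kernels of the masses are stationary and positive definite. -/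
def ST_SKN5 : Prop := ∀ (r s : ℕ) (θ : T r) (f : T r → T s), Continuous f →
  ∀ (q : ℕ) (t : TY r s) (d : ℕ) (φ : T (r + s) → Op d) (c : T (r + s) → E d), 1 ≤ q →
  OK θ f q t → UR φ → Continuous c →
  SK (fun k k' => NT q t (EE (SA θ f) φ c k k')) ∧
  SK (fun k k' => ‖∫ y, EE (SA θ f) φ c k k' y ∂(mm (r + s))‖ ^ 2)

/-- CLF: all types of a prime in the same coordinates. -/
def ST_CLF5 : Prop := ∀ (r s : ℕ) (θ : T r) (f : T r → T s) (q : ℕ), Ind θ → Continuous f →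
  q.Prime → ∃ (Γ : Type) (_ : AddCommGroup Γ) (gen : Fin (s + r) → Γ)
  (Φ : (T (r + s) → ℂ) → Γ → ℝ) (Al : AddSubgroup Γ → Prop),
  AddSubgroup.closure (Set.range gen) = ⊤ ∧ Al ⊥ ∧ (∀ B, Al B → Al (loc q B)) ∧
  (∀ G, MemLp G 2 (mm (r + s)) → (∀ u, 0 ≤ Φ G u) ∧ Summable (Φ G) ∧
    ∑' u, Φ G u ≤ ∫ y, ‖G y‖ ^ 2 ∂(mm (r + s))) ∧
  (∀ t : TY r s, OK θ f q t → ∃ B : AddSubgroup Γ, Al B ∧
    ∀ G, MemLp G 2 (mm (r + s)) → NT q t G = ∑' u : B, Φ G (u : Γ)) ∧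
  ∀ B : AddSubgroup Γ, Al B → ∃ t : TY r s, OK θ f q t ∧
    ∀ G, MemLp G 2 (mm (r + s)) → ∑' u : B, Φ G (u : Γ) = NT q t G

/-- QHS: the masses of the lifts for one function tend to zero. -/
def ST_QHS5 : Prop := ∀ (r : ℕ) (θ : T r) (F : T r → U), Ind θ → Continuous F → ¬ Kc θ F →
  ∀ (g : T r → ℂ) (ε : ℝ), MemLp g 2 (mm r) → 0 < ε →
  ∃ q₀ : ℕ, ∀ q ≥ q₀, q.Prime → ∀ D : T r → T r → U, Lift θ F q 1 D → ms q D 1 g ≤ ε

/-- QLU: all masses for `q → ∞`. -/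
def ST_QLU5 : Prop := ∀ (r s : ℕ) (θ : T r) (f : T r → T s), Ind θ → Continuous f →
  ∀ (G : T (r + s) → ℂ) (ε : ℝ), MemLp G 2 (mm (r + s)) → 0 < ε →
  ∃ q₀ : ℕ, ∀ q ≥ q₀, q.Prime → ∀ t : TY r s, OK θ f q t →
    NT q t G ≤ ‖∫ y, G y ∂(mm (r + s))‖ ^ 2 + ε

/-- HEL: intersections of `q`-local subgroups of a group with `D` generators. -/
def ST_HEL : Prop := ∀ (D q : ℕ) (Γ : Type) [AddCommGroup Γ] (gen : Fin D → Γ) (ι : Type)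
  (J : Finset ι) (Δ : ι → AddSubgroup Γ), q.Prime →
  AddSubgroup.closure (Set.range gen) = ⊤ → (∀ i ∈ J, loc q (Δ i) = Δ i) →
  ∃ J' ⊆ J, J'.card ≤ D ∧ ∀ u : Γ, (∀ i ∈ J', u ∈ Δ i) → ∀ i ∈ J, u ∈ Δ i

/-- CNT: the sum over the primes of a block for one fixed prime `q`. -/
def ST_CNT : Prop := ∀ (κ : ℝ) (D : ℕ), 0 < κ → ∃ K₀ n₀ : ℕ, ∀ (q : ℕ) (Γ : Type)
  [AddCommGroup Γ] (gen : Fin D → Γ) (Φ : ℕ → ℕ → Γ → ℝ) (N₀ : ℕ → ℕ → ℝ) (C η : ℝ)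
  (Al : AddSubgroup Γ → Prop) (P : Finset ℕ) (Δ : ℕ → AddSubgroup Γ), q.Prime →
  AddSubgroup.closure (Set.range gen) = ⊤ → 0 ≤ C → 0 ≤ η → (∀ k k' u, 0 ≤ Φ k k' u) →
  (∀ k k', Summable (Φ k k')) → (∀ k k', ∑' u, Φ k k' u ≤ C) → SK N₀ →
  (∀ k k', N₀ k k' ≤ Φ k k' 0) → Al ⊥ → (∀ B, Al B → Al (loc q B)) →
  (∀ B, Al B → SK (NA Φ B) ∧ LM (NA Φ B) 1 ≤ LM N₀ 1 + η) →
  (∀ p ∈ P, p.Prime) → (∀ p ∈ P, Al (Δ p)) →
  ∑ p ∈ P, (LM (NA Φ (Δ p)) p - LM N₀ p) ≤ (P.card : ℝ) * (κ * C + K₀ * η) + n₀ * C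

/-! ## Block S: the sums over a block of primes -/

/-- STA: the resonances are small on the average. -/
def ST_STA5 : Prop := ∀ (r s : ℕ) (θ : T r) (f : T r → T s), Ind θ → Continuous f →
  ∀ (d : ℕ) (φ : T (r + s) → Op d) (c : T (r + s) → E d), UR φ → Continuous c →
  ∀ δ : ℝ, 0 < δ → ∀ᶠ i : ℕ in atTop, Rich 1 i →
  ∀ t : ℕ → ℕ → TY r s, (∀ p q, OK θ f q (t p q)) →
  ∃ t₀ : ℕ, ∀ H : ℕ, t₀ ≤ H → ∑ h ∈ range H, ∑ h' ∈ range H,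
    (∑ p ∈ PB 1 i, ∫ y, ‖EE (SA θ f) φ c (p * h) (p * h') y‖ ^ 2 ∂(mm (r + s)) +
      ∑ p ∈ PB 1 i, ∑ q ∈ (PB 1 i).erase p, (NT q (t p q) (EE (SA θ f) φ c (p * h) (p * h')) -
        ‖∫ y, EE (SA θ f) φ c (p * h) (p * h') y ∂(mm (r + s))‖ ^ 2)) ≤
    δ * ((PB 1 i).card : ℝ) ^ 2 * (H : ℝ) ^ 2

/-- STR: the property of the random part holds for the skew product. -/
def ST_STR5 : Prop := ∀ (r s : ℕ) (θ : T r) (f : T r → T s), Ind θ → Continuous f → N0 θ f →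
  StrP (SA θ f)

/-- ANZ: the theorem for the skew product. -/
def ST_ANZ5 : Prop := ∀ (r s : ℕ) (θ : T r) (f : T r → T s), Ind θ → Continuous f → N0 θ f →
  Good3 (SA θ f)

/-- UEN: uniquely ergodic skew products in the sense of the hand-in. -/
def ST_UEN5 : Prop := ∀ (n : ℕ) (S : C(T n, T n)), Pool.Agent.Helper40.KZP.Skew S →
  Good3 (S : T n → T n) ∧ EQ S (mm n) ∧ MeasurePreserving S (mm n) (mm n)

end Pool.Agent.Helper40.KZ
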