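import Pool.Agent.Helper40.KZ.Fin
import Pool.Agent.Helper40.JZ.All
import Pool.Agent.Helper29.K5.HAR
import Pool.Agent.Helper29.K5.SEL
import Pool.Agent.Helper29.K5.UEN5
import Pool.Agent.Helper53.K5.CNT
import Pool.Agent.Helper59.K5.SKN5
import Pool.Agent.Helper60.K5.EQA5
import Pool.Agent.Helper60.K5.KUR
import Pool.Agent.Helper60.K5.LFR5
import Pool.Agent.Helper60.K5.PUR5
import Pool.Agent.Helper60.K5.RES5
import Pool.Agent.Helper89.K5.JTP5
import Pool.Agent.Helper89.K5.STA5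
import Pool.Agent.Helper92.K5.QHS5
import Pool.Agent.Helper95.K5.CLF5
import Pool.Agent.Helper95.K5.MTR5
import Pool.Agent.Helper96.K5.ANZ5
import Pool.Agent.Helper96.K5.FIB5
import Pool.Agent.Helper96.K5.HEL
import Pool.Agent.Helper96.K5.MPA5
import Pool.Agent.Helper96.K5.NTF5
import Pool.Agent.Helper96.K5.QLU5
import Pool.Agent.Helper96.K5.STR5

/-!
All the modules of the theorem on uniquely ergodic skew products with a torus as the fibre put
together.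
-/

namespace Pool.Agent.Helper40.KZ

open Pool.Agent.Helper40.JZ (all_TOR all_TCH all_ERG all_MPZ all_POW all_COB all_PUR all_MSF
  all_PRJ all_PRB all_RTM all_NRT all_LCH all_EVC all_QBZ all_LMF all_THB4)

universe u

theorem all_KUR : ST_KUR := st_KUR all_TOR all_TCH all_ERG all_MPZ all_POW

theorem all_PUR5 : ST_PUR5 := st_PUR5 all_PUR

theorem all_LFR5 : ST_LFR5 := st_LFR5 all_TOR all_ERG all_MPZ all_POW

theorem all_FIB5 : ST_FIB5 := st_FIB5

theorem all_NTF5 : ST_NTF5 := st_NTF5 all_TOR all_MSF all_FIB5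

theorem all_MPA5 : ST_MPA5 := st_MPA5 all_FIB5

theorem all_EQA5 : ST_EQA5 := st_EQA5 all_ERG all_POW all_COB

theorem all_JTP5 : ST_JTP5 := st_JTP5 all_COB

theorem all_RES5 : ST_RES5 := st_RES5 all_PUR5 all_KUR all_LFR5 all_PRJ all_PRB all_JTP5
  all_FIB5 all_NTF5 all_EQA5 Pool.Agent.Helper40.DZ.all_EQR all_ERG all_MPZ all_TOR

theorem all_MTR5 : ST_MTR5 := st_MTR5 all_TOR all_FIB5 all_MSF

theorem all_SKN5 : ST_SKN5 := st_SKN5 all_TOR all_FIB5 all_NTF5 all_MPA5 st_HAR st_SEL all_MTR5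

theorem all_CLF5 : ST_CLF5 := st_CLF5 all_TOR all_TCH all_LCH all_MSF all_FIB5

theorem all_QHS5 : ST_QHS5 := st_QHS5 all_TOR all_TCH all_ERG all_MSF all_EVC

theorem all_QLU5 : ST_QLU5 := st_QLU5 all_MSF all_FIB5 all_NTF5 all_QHS5 all_QBZ

theorem all_CNT : ST_CNT := st_CNT st_HEL all_LMF

theorem all_STA5 : ST_STA5 := st_STA5 all_NTF5 all_SKN5 all_CLF5 all_QLU5 all_LMF all_CNT all_MPA5

theorem all_STR5 : ST_STR5 := st_STR5 all_NTF5 all_SKN5 all_LMF all_MPA5 all_RES5 all_STA5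
  all_EQA5 Pool.Agent.Helper40.DZ.all_KER Pool.Agent.Helper40.DZ.all_EQR

theorem all_ANZ5 : ST_ANZ5 := st_ANZ5 all_MPA5 all_EQA5 all_STR5 all_THB4

theorem all_UEN5 : ST_UEN5 := st_UEN5 all_FIB5 all_MPA5 all_EQA5 all_ANZ5

open Pool.Agent.Helper16.AZ (T)
open Pool.Agent.Helper16.CZP (Base Rot)

/-- part 1 -/
theorem all_one (X : Type) [MetricSpace X] [CompactSpace X] (r : ℕ) (π : X → T r)
    (S : C(T r, T r)) (τ : X → X) (ρ : X → X → ℝ) (F : X → ℂ)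
    (hI : Pool.Agent.Helper40.IZP.IsoExt π S τ ρ) (hA : KZP.Adm π S τ F) (x : X) :
    Pool.Agent.Helper40.DZP.Vanish τ F x :=
  fin_one all_UEN5 Pool.Agent.Helper40.IZ.all_FXR
    (fun X _ _ r π S τ ρ F hI hA x => Pool.Agent.Helper40.IZ.all_one X r π S τ ρ F hI hA x)
    X r π S τ ρ F hI hA x

/-- part 2 -/
theorem all_two (B : Type u) [CStarAlgebra B] (r : ℕ) (S : C(T r, T r)) (α : B →⋆ₐ[ℂ] B)
    (π : C(T r, ℂ) →⋆ₐ[ℂ] B) (hS : (Base S ∨ KZP.Skew S) ∨ Pool.Agent.Helper40.DZP.ZeroEnt S)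
    (hr : Rot S α π) (a : B)
    (ha : a ∈ closure (Submodule.span ℂ (Pool.Agent.Helper40.DZP.FamSet α π) : Set B)) :
    Pool.Agent.Helper40.Mob.TwistedDisjoint α a :=
  fin_two all_UEN5 Pool.Agent.Helper40.DZ.all_CSP4
    Pool.Agent.Helper40.DZ.all_GBS Pool.Agent.Helper40.DZ.all_ZEA B r S α π hS hr a ha

end Pool.Agent.Helper40.KZ
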