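import Pool.Agent.Helper91.KZ.StG

/-!
# Generic minimal polynomials and base change
-/

set_option autoImplicit false

namespace Pool.Agent.Helper40.KZ

open Pool.Agent.Helper91.KZ Polynomial TensorProduct

universe u

/-- apply a linear map to the coefficients -/
noncomputable def lc {K K' : Type u} [Field K] [Field K'] [Algebra K K'] (f : K' →ₗ[K] K)
    (p : K'[X]) : K[X] :=
  ∑ i ∈ Finset.range (p.natDegree + 1), monomial i (f (p.coeff i))

theorem lc_coeff {K K' : Type u} [Field K] [Field K'] [Algebra K K'] (f : K' →ₗ[K] K)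
    (p : K'[X]) (i : ℕ) : (lc f p).coeff i = f (p.coeff i) := by
  unfold lc
  rw [finsetSum_coeff]
  simp only [coeff_monomial]
  rw [Finset.sum_ite_eq']
  split_ifs with h
  · rfl
  · rw [Finset.mem_range, not_lt] at h
    rw [coeff_eq_zero_of_natDegree_lt (by omega), map_zero]

theorem lc_zero {K K' : Type u} [Field K] [Field K'] [Algebra K K'] (f : K' →ₗ[K] K) :
    lc f (0 : K'[X]) = 0 := by
  ext i
  rw [lc_coeff, coeff_zero, coeff_zero, map_zero]

/-- the same for two variables -/
noncomputable def lc2 {K K' : Type u} [Field K] [Field K'] [Algebra K K'] (f : K' →ₗ[K] K)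
    (p : K'[X][X]) : K[X][X] :=
  ∑ i ∈ Finset.range (p.natDegree + 1), monomial i (lc f (p.coeff i))

theorem lc2_coeff {K K' : Type u} [Field K] [Field K'] [Algebra K K'] (f : K' →ₗ[K] K)
    (p : K'[X][X]) (i : ℕ) : (lc2 f p).coeff i = lc f (p.coeff i) := by
  unfold lc2
  rw [finsetSum_coeff]
  simp only [coeff_monomial]
  rw [Finset.sum_ite_eq']
  split_ifs with h
  · rfl
  · rw [Finset.mem_range, not_lt] at h
    rw [coeff_eq_zero_of_natDegree_lt (by omega), lc_zero]

theorem st_BC : ST_BC.{u} := by
  intro K A _ _ _ K' _ _ z P h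
  refine ⟨h.mon.map _, ?_, ?_⟩
  · have h1 : ev (K := K') (A := K' ⊗[K] A) (P.map (mapRingHom (algebraMap K K')))
        (z.map (Algebra.TensorProduct.includeRight : A →ₐ[K] K' ⊗[K] A).toRingHom) =
        mapRingHom (Algebra.TensorProduct.includeRight : A →ₐ[K] K' ⊗[K] A).toRingHom (ev P z) := by
      unfold ev
      rw [eval₂_map, hom_eval₂]
      rw [coe_mapRingHom]
      congr 1
      ext c
      · simp only [RingHom.coe_comp, Function.comp_apply, coe_mapRingHom, map_C, coeff_C]
        congr 1
        rw [← IsScalarTower.algebraMap_apply]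
        exact (AlgHom.commutes (Algebra.TensorProduct.includeRight : A →ₐ[K] K' ⊗[K] A) _).symm
      · simp
    rw [h1, h.root, map_zero]
  · intro Q hQ h0
    have hdeg : (P.map (mapRingHom (algebraMap K K'))).degree = (P.natDegree : WithBot ℕ) := by
      rw [h.mon.degree_map, degree_eq_natDegree h.mon.ne_zero]
    rw [hdeg] at hQ
    have hQ' := (degree_lt_iff_coeff_zero _ _).1 hQ
    have key : ∀ f : K' →ₗ[K] K, lc2 f Q = 0 := by
      intro f
      apply h.ind
      · rw [degree_eq_natDegree h.mon.ne_zero, degree_lt_iff_coeff_zero]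
        intro m hm
        rw [lc2_coeff, hQ' m hm, lc_zero]
      · ext N
        let Lam : K' ⊗[K] A →ₗ[K] A := (TensorProduct.lid K A).toLinearMap ∘ₗ LinearMap.rTensor A f
        have hLam : ∀ (s : K') (a : A), Lam (s ⊗ₜ a) = f s • a := fun s a => by simp [Lam]
        have hN := congrArg (fun w : (K' ⊗[K] A)[X] => Lam (w.coeff N)) h0
        simp only [coeff_zero, map_zero] at hN
        rw [coeff_zero, ← hN]
        unfold ev
        rw [eval₂_eq_sum_range' (mapRingHom (algebraMap K A)) (p := lc2 f Q) (n := Q.natDegree + 1),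
          eval₂_eq_sum_range, finsetSum_coeff, finsetSum_coeff, map_sum]
        · refine Finset.sum_congr rfl fun j _ => ?_
          rw [coeff_mul, coeff_mul, map_sum]
          refine Finset.sum_congr rfl fun st _ => ?_
          rw [coe_mapRingHom, coe_mapRingHom, coeff_map, coeff_map, lc2_coeff, lc_coeff,
            ← Polynomial.map_pow, coeff_map]
          change _ = Lam (algebraMap K' (K' ⊗[K] A) _ * ((1 : K') ⊗ₜ[K] ((z ^ j).coeff st.2)))
          rw [Algebra.TensorProduct.algebraMap_apply, Algebra.TensorProduct.tmul_mul_tmul, mul_one,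
            one_mul, hLam, Algebra.smul_def]
          rfl
        · rw [Nat.lt_succ_iff, natDegree_le_iff_coeff_eq_zero]
          intro m hm
          rw [lc2_coeff, coeff_eq_zero_of_natDegree_lt hm, lc_zero]
    ext j i
    rw [coeff_zero, coeff_zero]
    rw [← Module.forall_dual_apply_eq_zero_iff K]
    intro f
    have := congrArg (fun q : K[X][X] => (q.coeff j).coeff i) (key f)
    simp only [lc2_coeff, lc_coeff, coeff_zero] at this
    exact this

end Pool.Agent.Helper40.KZ
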