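import Pool.Agent.Helper40.JZ.Stmts

/-!
Two continuous levels, the fibre of the first level is a torus of any dimension `s`: the base is
the extension `(x, k) ↦ (x + θ, k + f x)` of a minimal rotation of the torus with a continuous
function `f` with values in the torus of dimension `s`. Definitions for the modules
(MP_7a8f48_an).
-/

open Finset Filter MeasureTheory Topology
open scoped ComplexConjugate InnerProductSpace

namespace Pool.Agent.Helper40.KZ

open Pool.Agent.Helper16.AZ (T E Op mm fc Ind)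
open Pool.Agent.Helper16.BZ (co Wk EE ff EQ)
open Pool.Agent.Helper16.MD (MS PB Am RW Rich)
open Pool.Agent.Helper40.DZ (RI UR SK Good3)
open Pool.Agent.Helper40.JZ (U cs tor Lift pj ms chi vz LM StrP)
open UnitAddTorus (mFourier)

/-- the first `r` coordinates -/
def ini {r s : ℕ} (y : T (r + s)) : T r := fun i => y (Fin.castAdd s i)

/-- the last `s` coordinates -/
def las {r s : ℕ} (y : T (r + s)) : T s := fun j => y (Fin.natAdd r j)

/-- the point with first coordinates `x` and last coordinates `k` -/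
def sn {r s : ℕ} (x : T r) (k : T s) : T (r + s) := Fin.append x k

/-- the skew product `(x, k) ↦ (x + θ, k + f x)` -/
def SA {r s : ℕ} (θ : T r) (f : T r → T s) (y : T (r + s)) : T (r + s) :=
  sn (ini y + θ) (las y + f (ini y))

/-- the cocycle `f x + f (x + θ) + ⋯ + f (x + (n - 1) θ)` -/
def cv {r s : ℕ} (θ : T r) (f : T r → T s) (n : ℕ) (x : T r) : T s :=
  ∑ j ∈ range n, f (x + j • θ)

/-- the function `∑ a i f i` -/
def fa {r s : ℕ} (f : T r → T s) (a : Fin s → ℤ) (x : T r) : U := chi a (f x)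

/-- no function `fa f a`, `a ≠ 0`, is a coboundary -/
def N0 {r s : ℕ} (θ : T r) (f : T r → T s) : Prop := ∀ a : Fin s → ℤ, a ≠ 0 →
  ∀ u : T r → U, Measurable u → ¬ ∀ᵐ x ∂(mm r), fa f a x + u (x + θ) = u x

/-- `F` is cohomologous to a constant -/
def Kc {r : ℕ} (θ : T r) (F : T r → U) : Prop :=
  ∃ (c : U) (u : T r → U), Measurable u ∧ ∀ᵐ x ∂(mm r), F x + u (x + θ) = c + u x

/-- resonances: `u` is a transfer function for `F` on the first and `F'` on the second side -/
def Rs {r : ℕ} (θ : T r) (F F' : T r → U) (p q : ℕ) (x₀ : T r) (u : T r → U) : Prop :=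
  Measurable u ∧ ∀ᵐ z ∂(mm r), u (z + θ) + cs θ F' q (x₀ + q • z) =
    cs θ F p (x₀ + p • z) + u z

/-- the Fourier coefficients in the last coordinates -/
noncomputable def fib {r s : ℕ} (G : T (r + s) → ℂ) (a : Fin s → ℤ) (x : T r) : ℂ :=
  ∫ k, mFourier (-a) k * G (sn x k) ∂(mm s)

/-- types: a group of characters of the fibre and a lift for each of its elements -/
abbrev TY (r s : ℕ) : Type :=
  AddSubgroup (Fin s → ℤ) × ((Fin s → ℤ) → T r → T r → U)

/-- admissible types -/
def OK {r s : ℕ} (θ : T r) (f : T r → T s) (q : ℕ) (t : TY r s) : Prop :=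
  (∀ a ∈ t.1, Lift θ (fa f a) q 1 (t.2 a)) ∧
  (∀ a ∈ t.1, ∀ b ∈ t.1, ∀ σ ∈ tor r q, ∀ᵐ x ∂(mm r),
    t.2 (a + b) σ x = t.2 a σ x + t.2 b σ x) ∧
  ∀ a ∈ t.1, Kc θ (fa f a) → ∀ i, (q : ℤ) ∣ a i

/-- the mass of a type -/
noncomputable def NT {r s : ℕ} (q : ℕ) (t : TY r s) (G : T (r + s) → ℂ) : ℝ :=
  ∑' a : t.1, ms q (t.2 (a : Fin s → ℤ)) 1 (fib G (a : Fin s → ℤ))

/-- the elements a multiple `m u` of which lies in `B`, with `m` prime to `q` -/
def loc {Γ : Type} [AddCommGroup Γ] (q : ℕ) (B : AddSubgroup Γ) : AddSubgroup Γ where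
  carrier := {u | ∃ m : ℕ, Nat.Coprime m q ∧ m • u ∈ B}
  zero_mem' := ⟨1, by simp, by simp⟩
  add_mem' := by
    rintro u v ⟨m, hm, hu⟩ ⟨n, hn, hv⟩
    refine ⟨m * n, Nat.Coprime.mul_left hm hn, ?_⟩
    rw [smul_add]
    refine B.add_mem ?_ ?_
    · rw [mul_comm, mul_smul]
      exact B.nsmul_mem hu n
    · rw [mul_smul]
      exact B.nsmul_mem hv m
  neg_mem' := by
    rintro u ⟨m, hm, hu⟩
    exact ⟨m, hm, by rw [smul_neg]; exact B.neg_mem hu⟩

/-- the kernel of a subgroup -/
noncomputable def NA {Γ : Type} [AddCommGroup Γ] (Φ : ℕ → ℕ → Γ → ℝ) (B : AddSubgroup Γ)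
    (k k' : ℕ) : ℝ := ∑' u : B, Φ k k' (u : Γ)

/-! ### basic facts -/

section basic

variable {r s : ℕ}

@[simp] theorem ini_sn (x : T r) (k : T s) : ini (sn x k) = x := by
  funext i
  simp [ini, sn]

@[simp] theorem las_sn (x : T r) (k : T s) : las (sn x k) = k := by
  funext i
  simp [las, sn]

@[simp] theorem sn_ini_las (y : T (r + s)) : sn (ini y) (las y) = y := by
  funext i
  refine Fin.addCases (fun j => ?_) (fun j => ?_) i
  · simp [sn, ini]
  · simp [sn, las]

theorem SA_sn (θ : T r) (f : T r → T s) (x : T r) (k : T s) :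
    SA θ f (sn x k) = sn (x + θ) (k + f x) := by
  simp [SA]

theorem cv_zero (θ : T r) (f : T r → T s) (x : T r) : cv θ f 0 x = 0 := by simp [cv]

theorem cv_succ (θ : T r) (f : T r → T s) (n : ℕ) (x : T r) :
    cv θ f (n + 1) x = cv θ f n x + f (x + n • θ) := by
  simp [cv, sum_range_succ]

theorem chi_add (a : Fin s → ℤ) (k k' : T s) : chi a (k + k') = chi a k + chi a k' := by
  simp [chi, smul_add, sum_add_distrib]

theorem chi_add_left (a b : Fin s → ℤ) (k : T s) : chi (a + b) k = chi a k + chi b k := by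
  simp [chi, add_smul, sum_add_distrib]

theorem chi_zsmul_left (m : ℤ) (a : Fin s → ℤ) (k : T s) : chi (m • a) k = m • chi a k := by
  simp [chi, mul_smul, smul_sum]

theorem chi_zero (a : Fin s → ℤ) : chi a (0 : T s) = 0 := by simp [chi]

theorem fa_add (f : T r → T s) (a b : Fin s → ℤ) (x : T r) :
    fa f (a + b) x = fa f a x + fa f b x := chi_add_left a b (f x)

theorem fa_zsmul (f : T r → T s) (m : ℤ) (a : Fin s → ℤ) (x : T r) :
    fa f (m • a) x = m • fa f a x := chi_zsmul_left m a (f x)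

theorem chi_cv (θ : T r) (f : T r → T s) (a : Fin s → ℤ) (n : ℕ) (x : T r) :
    chi a (cv θ f n x) = cs θ (fa f a) n x := by
  induction n with
  | zero => rw [cv_zero, chi_zero, Pool.Agent.Helper40.JZ.cs_zero]
  | succ n ih => rw [cv_succ, chi_add, ih, Pool.Agent.Helper40.JZ.cs_succ]; rfl

theorem SA_iterate (θ : T r) (f : T r → T s) (n : ℕ) (x : T r) (k : T s) :
    (SA θ f)^[n] (sn x k) = sn (x + n • θ) (k + cv θ f n x) := by
  induction n with
  | zero => simp [cv_zero]
  | succ n ih =>
    rw [Function.iterate_succ_apply', ih, SA_sn, cv_succ, succ_nsmul, add_assoc, add_assoc]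

theorem continuous_ini : Continuous (ini : T (r + s) → T r) := by
  unfold ini
  fun_prop

theorem continuous_las : Continuous (las : T (r + s) → T s) := by
  unfold las
  fun_prop

theorem continuous_sn : Continuous (fun z : T r × T s => sn z.1 z.2) := by
  refine continuous_pi fun i => ?_
  refine Fin.addCases (fun j => ?_) (fun j => ?_) i
  · simp only [sn, Fin.append_left]
    exact (continuous_apply j).comp continuous_fst
  · simp only [sn, Fin.append_right]
    exact (continuous_apply j).comp continuous_snd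

theorem continuous_chi (a : Fin s → ℤ) : Continuous (chi a) := by
  unfold chi
  fun_prop

theorem continuous_fa {f : T r → T s} (hf : Continuous f) (a : Fin s → ℤ) :
    Continuous (fa f a) := (continuous_chi a).comp hf

theorem continuous_SA (θ : T r) {f : T r → T s} (hf : Continuous f) : Continuous (SA θ f) := by
  have h1 : Continuous fun y : T (r + s) => (ini y + θ, las y + f (ini y)) :=
    (continuous_ini.add continuous_const).prodMk
      (continuous_las.add (hf.comp continuous_ini))
  exact continuous_sn.comp h1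

/-- a resonance read from the other side -/
theorem Rs.symm {θ : T r} {F F' : T r → U} {p q : ℕ} {x₀ : T r} {u : T r → U}
    (h : Rs θ F F' p q x₀ u) : Rs θ F' F q p x₀ (fun z => -u z) := by
  refine ⟨h.1.neg, ?_⟩
  filter_upwards [h.2] with z hz
  have h1 : u (z + θ) = cs θ F p (x₀ + p • z) + u z - cs θ F' q (x₀ + q • z) := by
    rw [← hz]
    abel
  rw [h1]
  abel

theorem mem_loc {Γ : Type} [AddCommGroup Γ] {q : ℕ} {B : AddSubgroup Γ} {u : Γ} :
    u ∈ loc q B ↔ ∃ m : ℕ, Nat.Coprime m q ∧ m • u ∈ B := Iff.rfl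

theorem le_loc {Γ : Type} [AddCommGroup Γ] {q : ℕ} {B : AddSubgroup Γ} : B ≤ loc q B :=
  fun u hu => ⟨1, by simp, by simpa using hu⟩

end basic

end Pool.Agent.Helper40.KZ
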