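import Pool.Agent.Helper40.KZ.VL

/-!
# Generic specialisations have the generic degree
-/

set_option autoImplicit false

namespace Pool.Agent.Helper40.KZ

open Pool.Agent.Helper91.KZ Polynomial TensorProduct

universe u

theorem st_GEN (hDET : ST_DET.{u}) : ST_GEN.{u} := by
  intro K A _ _ _ _ _ z P h
  obtain ⟨f, hf⟩ := hDET K A P.natDegree (fun j => z ^ (j : ℕ)) (indep z _ fun Q hQ h0 =>
    h.ind Q (by rw [degree_eq_natDegree h.mon.ne_zero]; exact hQ) h0)
  have hl : ∃ l : K, ((Matrix.of fun i (j : Fin P.natDegree) =>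
      fp (f i) (z ^ (j : ℕ))).det).eval l ≠ 0 := by
    by_contra hcon
    push Not at hcon
    exact hf (zero_of_eval_zero _ hcon)
  obtain ⟨l, hl⟩ := hl
  have hm : (P.map (evalRingHom l)).Monic := h.mon.map _
  have h0 : aeval (vl l z) (P.map (evalRingHom l)) = 0 := by
    rw [← vl_ev, h.root]
    unfold vl
    rw [eval_zero]
  have hint : IsIntegral K (vl l z) := ⟨_, hm, h0⟩
  refine ⟨l, hint, le_antisymm ?_ ?_⟩
  · have h1 := minpoly.min K (vl l z) hm h0
    have h2 := natDegree_le_natDegree h1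
    rw [h.mon.natDegree_map] at h2
    exact h2
  · by_contra hlt
    rw [not_le] at hlt
    exact minpoly.ne_zero hint (nondeg z _ f l hl _ hlt (minpoly.aeval K _))

end Pool.Agent.Helper40.KZ
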