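import Pool.Agent.Helper91.KZ.StG

/-!
# Independence over power series after base change and translation
-/

set_option autoImplicit false

namespace Pool.Agent.Helper40.KZ

open Pool.Agent.Helper91.KZ Polynomial TensorProduct
open scoped PowerSeries

universe u

section

variable {K A : Type u} [Field K] [Ring A] [Algebra K A]

theorem fp_coeff (f : A →ₗ[K] K) (v : A[X]) (k : ℕ) : (fp f v).coeff k = f (v.coeff k) := by
  unfold fp
  rw [Polynomial.sum_def, finsetSum_coeff]
  simp only [coeff_monomial]
  rw [Finset.sum_ite_eq']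
  split_ifs with h
  · rfl
  · rw [mem_support_iff, not_not] at h
    rw [h, map_zero]

theorem fp_add (f : A →ₗ[K] K) (v w : A[X]) : fp f (v + w) = fp f v + fp f w := by
  ext k
  rw [coeff_add, fp_coeff, fp_coeff, fp_coeff, coeff_add, map_add]

variable (K' : Type u) [Field K'] [Algebra K K']

/-- the extension of a functional -/
noncomputable def fx (f : A →ₗ[K] K) : K' ⊗[K] A →ₗ[K'] K' :=
  (TensorProduct.AlgebraTensorModule.rid K K' K').toLinearMap ∘ₗ f.baseChange K'

theorem fx_tmul (f : A →ₗ[K] K) (s : K') (a : A) :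
    fx K' f (s ⊗ₜ a) = s * algebraMap K K' (f a) := by
  unfold fx
  simp [Algebra.smul_def, mul_comm]

/-- base change and translation of the coefficients -/
noncomputable def th (l : K') : K[X] →+* K'[X] :=
  (compRingHom (X + C l)).comp (mapRingHom (algebraMap K K'))

theorem th_inj (l : K') : Function.Injective (th (K := K) K' l) := by
  have h1 : Function.Injective (compRingHom (X + C l) : K'[X] →+* K'[X]) := by
    intro p q h
    exact taylor_injective l h
  exact h1.comp (map_injective _ (algebraMap K K').injective)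

theorem fx_coeff (l : K') (f : A →ₗ[K] K) (w : A[X]) (N : ℕ) :
    fx K' f (((w.map (Algebra.TensorProduct.includeRight : A →ₐ[K] K' ⊗[K] A).toRingHom).comp
        (X + C (algebraMap K' (K' ⊗[K] A) l)) : (K' ⊗[K] A)[X]).coeff N) =
      (th K' l (fp f w)).coeff N := by
  induction w using Polynomial.induction_on' with
  | add p q hp hq =>
    rw [Polynomial.map_add, add_comp, coeff_add, map_add, hp, hq, fp_add, map_add, coeff_add]
  | monomial m a =>
    have e1 : fp f (monomial m a) = monomial m (f a) := by
      ext k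
      rw [fp_coeff, coeff_monomial, coeff_monomial]
      split_ifs
      · rfl
      · exact map_zero _
    have e2 : (X + C (algebraMap K' (K' ⊗[K] A) l) : (K' ⊗[K] A)[X]) ^ m =
        ((X + C l : K'[X]) ^ m).map (algebraMap K' (K' ⊗[K] A)) := by
      rw [Polynomial.map_pow, Polynomial.map_add, map_X, map_C]
    rw [map_monomial, monomial_comp, coeff_C_mul, e2, coeff_map, e1]
    have e3 : th K' l (monomial m (f a)) = C (algebraMap K K' (f a)) * (X + C l) ^ m := by
      unfold th
      rw [RingHom.comp_apply, coe_mapRingHom, map_monomial, coe_compRingHom_apply, monomial_comp]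
    rw [e3, coeff_C_mul]
    change fx K' f ((1 : K') ⊗ₜ[K] a * algebraMap K' (K' ⊗[K] A) _) = _
    rw [Algebra.TensorProduct.algebraMap_apply, Algebra.TensorProduct.tmul_mul_tmul, mul_one,
      one_mul, fx_tmul, mul_comm]
    rfl

end

theorem st_IN2 (hDET : ST_DET.{u}) : ST_IN2.{u} := by
  intro K A _ _ _ K' _ _ n v l hv b hb
  obtain ⟨f, hf⟩ := hDET K A n v hv
  let Φ : K[X] →+* K'⟦X⟧ := (coeToPowerSeries.ringHom (R := K')).comp (th K' l)
  have hΦ : Function.Injective Φ := by
    intro p q h
    exact th_inj K' l (Polynomial.coe_injective K' h)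
  have hM : (Φ.mapMatrix (Matrix.of fun i j => fp (f i) (v j))).det ≠ 0 := by
    rw [← RingHom.map_det]
    intro h0
    exact hf (hΦ (h0.trans (map_zero Φ).symm))
  apply Matrix.eq_zero_of_mulVec_eq_zero hM
  funext i
  rw [Matrix.mulVec, dotProduct, Pi.zero_apply]
  ext N
  have hN := congrArg (fun w : (K' ⊗[K] A)⟦X⟧ => fx K' (f i) (PowerSeries.coeff N w)) hb
  simp only [map_sum, map_zero] at hN
  rw [map_sum, map_zero, ← hN]
  refine Finset.sum_congr rfl fun j _ => ?_
  rw [mul_comm (Φ.mapMatrix (Matrix.of fun i j => fp (f i) (v j)) i j) (b j),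
    PowerSeries.coeff_mul, PowerSeries.coeff_mul, map_sum]
  refine Finset.sum_congr rfl fun st _ => ?_
  rw [PowerSeries.coeff_map, ← Algebra.smul_def, map_smul, Polynomial.coeff_coe, smul_eq_mul,
    fx_coeff]
  congr 1
  exact Polynomial.coeff_coe _ _

end Pool.Agent.Helper40.KZ
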