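import Pool.Agent.Helper91.KZ.StG

/-!
# Reversal of linear polynomials
-/

set_option autoImplicit false

namespace Pool.Agent.Helper40.KZ

open Pool.Agent.Helper91.KZ Polynomial TensorProduct

universe u

section

variable {K A : Type u} [Field K] [Ring A] [Algebra K A]

theorem ca_comm (c : K[X]) (x : A[X]) : Commute (ca A c) x := by
  unfold ca
  induction c using Polynomial.induction_on' with
  | add p q hp hq => rw [Polynomial.map_add]; exact hp.add_left hq
  | monomial n r =>
    rw [Polynomial.map_monomial, ← C_mul_X_pow_eq_monomial]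
    refine Commute.mul_left ?_ (commute_X_pow x n)
    change C (algebraMap K A r) * x = x * C (algebraMap K A r)
    ext i
    rw [coeff_C_mul, coeff_mul_C]
    exact Algebra.commutes r _

theorem ev_add (P Q : K[X][X]) (z : A[X]) : ev (P + Q) z = ev P z + ev Q z := by
  unfold ev; exact eval₂_add _ _

theorem ev_sub (P Q : K[X][X]) (z : A[X]) : ev (P - Q) z = ev P z - ev Q z := by
  unfold ev; exact eval₂_sub _

theorem ev_mul (P Q : K[X][X]) (z : A[X]) : ev (P * Q) z = ev P z * ev Q z := by
  unfold ev
  exact eval₂_mul_noncomm _ _ fun k => ca_comm (Q.coeff k) z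

theorem ev_C (c : K[X]) (z : A[X]) : ev (C c) z = ca A c := by
  unfold ev ca; rw [eval₂_C]; rfl

/-- the reflection of a polynomial in two variables -/
noncomputable def R (N : ℕ) (Q : K[X][X]) : K[X][X] :=
  ∑ j ∈ Finset.range (Q.natDegree + 1), monomial j (reflect (N - j) (Q.coeff j))

theorem R_coeff (N : ℕ) (Q : K[X][X]) (j : ℕ) : (R N Q).coeff j = reflect (N - j) (Q.coeff j) := by
  unfold R
  rw [finsetSum_coeff]
  simp only [coeff_monomial]
  rw [Finset.sum_ite_eq']
  split_ifs with h
  · rfl
  · rw [Finset.mem_range, not_lt] at h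
    rw [coeff_eq_zero_of_natDegree_lt (by omega), reflect_zero]

theorem reflect_sum {S : Type u} [Semiring S] (N : ℕ) (s : Finset ℕ) (f : ℕ → S[X]) :
    reflect N (∑ j ∈ s, f j) = ∑ j ∈ s, reflect N (f j) := by
  induction s using Finset.cons_induction with
  | empty => simp [reflect_zero]
  | cons a s ha ih => rw [Finset.sum_cons, Finset.sum_cons, reflect_add, ih]

theorem reflect_pow_lin (a b : A) (j : ℕ) :
    reflect j ((C b + C a * X) ^ j) = (C a + C b * X) ^ j := by
  have hd : (C b + C a * X : A[X]).natDegree ≤ 1 := by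
    rw [add_comm]; exact natDegree_linear_le
  have h1 : reflect 1 (C b + C a * X : A[X]) = C a + C b * X := by
    rw [reflect_add, reflect_C, pow_one, add_comm]
    congr 1
    have := reflect_C_mul_X_pow 1 1 (c := a)
    rw [pow_one] at this
    rw [this, revAt_le (le_refl 1)]
    simp
  induction j with
  | zero => simp
  | succ j ih =>
    rw [pow_succ, reflect_mul _ _ (F := j) (G := 1) ?_ hd, ih, h1, ← pow_succ]
    refine (natDegree_pow_le_of_le j hd).trans ?_
    rw [mul_one]

theorem hom {a b : A} (Q : K[X][X]) (N : ℕ) (hN : ∀ j ≤ Q.natDegree, (Q.coeff j).natDegree + j ≤ N)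
    (hz : ev Q (C b + C a * X) = 0) : ev (R N Q) (C a + C b * X) = 0 := by
  have h1 : ev (R N Q) (C a + C b * X) = reflect N (ev Q (C b + C a * X)) := by
    unfold ev
    rw [eval₂_eq_sum_range (p := Q)]
    unfold R
    rw [eval₂_finsetSum, reflect_sum]
    refine Finset.sum_congr rfl fun j hj => ?_
    rw [Finset.mem_range] at hj
    have hj' := hN j (by omega)
    rw [eval₂_monomial]
    have hNj : N = (N - j) + j := by omega
    conv_rhs => rw [hNj]
    rw [reflect_mul, reflect_pow_lin]
    · rw [coe_mapRingHom, reflect_map]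
    · refine natDegree_map_le.trans ?_
      omega
    · refine (natDegree_pow_le_of_le j (m := 1) ?_).trans (by rw [mul_one])
      rw [add_comm]; exact natDegree_linear_le
  rw [h1, hz, reflect_zero]

theorem exN (Q : K[X][X]) : ∃ N, ∀ j ≤ Q.natDegree, (Q.coeff j).natDegree + j ≤ N := by
  refine ⟨∑ j ∈ Finset.range (Q.natDegree + 1), ((Q.coeff j).natDegree + j), fun j hj => ?_⟩
  exact Finset.single_le_sum (f := fun j => (Q.coeff j).natDegree + j) (fun _ _ => Nat.zero_le _)
    (Finset.mem_range.2 (by omega))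

theorem R_top (N : ℕ) (Q : K[X][X]) (hQ : Q.Monic) :
    (R N Q).coeff Q.natDegree = X ^ (N - Q.natDegree) := by
  rw [R_coeff, hQ.coeff_natDegree, reflect_one]

theorem R_ne (N : ℕ) (Q : K[X][X]) (hQ : Q.Monic) : R N Q ≠ 0 := by
  intro h0
  have := R_top N Q hQ
  rw [h0, coeff_zero] at this
  exact pow_ne_zero _ X_ne_zero this.symm

theorem R_deg (N : ℕ) (Q : K[X][X]) : (R N Q).natDegree ≤ Q.natDegree := by
  rw [natDegree_le_iff_coeff_eq_zero]
  intro j hj
  rw [R_coeff, coeff_eq_zero_of_natDegree_lt hj, reflect_zero]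

theorem le_deg {a b : A} {P P' : K[X][X]} (h : GM (C a + C b * X) P) (h' : GM (C b + C a * X) P') :
    P.natDegree ≤ P'.natDegree := by
  obtain ⟨N, hN⟩ := exN P'
  have h1 := hom P' N hN h'.root
  by_contra hlt
  rw [not_le] at hlt
  refine R_ne N P' h'.mon (h.ind _ ?_ h1)
  exact degree_lt_degree ((R_deg N P').trans_lt hlt)

end

theorem st_REV : ST_REV.{u} := by
  intro K A _ _ _ _ a b P P' h h'
  have hn : P.natDegree = P'.natDegree := le_antisymm (le_deg h h') (le_deg h' h)
  obtain ⟨N, hN⟩ := exN P'
  have h1 := hom P' N hN h'.root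
  have hnN : P.natDegree ≤ N := by
    have := hN P'.natDegree le_rfl
    omega
  have hD : R N P' - C (X ^ (N - P.natDegree)) * P = 0 := by
    apply h.ind
    · have hle : (R N P' - C (X ^ (N - P.natDegree)) * P).natDegree ≤ P.natDegree := by
        refine (natDegree_sub_le _ _).trans (max_le ?_ ?_)
        · exact (R_deg N P').trans hn.ge
        · exact natDegree_C_mul_le _ _
      have hc : (R N P' - C (X ^ (N - P.natDegree)) * P).coeff P.natDegree = 0 := by
        rw [coeff_sub, coeff_C_mul, h.mon.coeff_natDegree, mul_one]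
        conv_lhs => rw [hn]
        rw [R_top N P' h'.mon, sub_self]
      by_cases h0 : R N P' - C (X ^ (N - P.natDegree)) * P = 0
      · rw [h0, degree_zero]
        exact bot_lt_iff_ne_bot.2 (fun hb => h.mon.ne_zero (degree_eq_bot.1 hb))
      · refine degree_lt_degree (lt_of_le_of_ne hle fun he => ?_)
        generalize hG : R N P' - C (X ^ (N - P.natDegree)) * P = G at hc he h0
        rw [← he, coeff_natDegree, leadingCoeff_eq_zero] at hc
        exact h0 hc
    · rw [ev_sub, ev_mul, h1, h.root, mul_zero, sub_zero]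
  have h0 : reflect N (P'.coeff 0) = X ^ (N - P.natDegree) * P.coeff 0 := by
    have := congrArg (fun Q : K[X][X] => Q.coeff 0) hD
    simp only [coeff_sub, coeff_C_mul, coeff_zero, R_coeff, Nat.sub_zero] at this
    exact sub_eq_zero.1 this
  have hk : ∀ k, (P.coeff 0).coeff k = (P'.coeff 0).coeff (revAt N (k + (N - P.natDegree))) := by
    intro k
    have := congrArg (fun Q : K[X] => Q.coeff (k + (N - P.natDegree))) h0
    simp only [coeff_reflect, coeff_X_pow_mul] at this
    exact this.symm
  refine ⟨hn, ?_, ?_⟩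
  · rw [natDegree_le_iff_coeff_eq_zero]
    intro k hkn
    rw [hk, revAt_eq_self_of_lt (by omega)]
    have h2 := hN 0 (Nat.zero_le _)
    exact coeff_eq_zero_of_natDegree_lt (by omega)
  · rw [hk, show P.natDegree + (N - P.natDegree) = N by omega, revAt_le le_rfl, Nat.sub_self]

end Pool.Agent.Helper40.KZ
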