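import Pool.Agent.Helper40.KZ.REV

/-!
# Translations and shifts of generic minimal polynomials
-/

set_option autoImplicit false

namespace Pool.Agent.Helper40.KZ

open Pool.Agent.Helper91.KZ Polynomial TensorProduct

universe u

section

variable {K A : Type u} [Field K] [Ring A] [Algebra K A]

/-- evaluation as a ring homomorphism -/
noncomputable def evH (z : A[X]) : K[X][X] →+* A[X] :=
  eval₂RingHom' (mapRingHom (algebraMap K A)) z fun c => ca_comm c z

theorem evH_apply (z : A[X]) (Q : K[X][X]) : evH z Q = ev Q z := rfl

theorem ev_comp (P Q : K[X][X]) (z : A[X]) : ev (P.comp Q) z = ev P (ev Q z) := by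
  rw [← evH_apply, ← evH_apply z Q]
  unfold Polynomial.comp
  rw [hom_eval₂]
  unfold ev
  congr 1
  refine RingHom.ext fun c => ?_
  rw [RingHom.comp_apply, evH_apply, ev_C]
  rfl

theorem comm_XC (l : K) (r : A) : Commute (C r) (X + C (algebraMap K A l) : A[X]) := by
  refine Commute.add_right (commute_X _).symm ?_
  change C r * C _ = C _ * C r
  rw [← C_mul, ← C_mul, Algebra.commutes l r]

/-- translation -/
noncomputable def tau (A : Type u) [Ring A] [Algebra K A] (l : K) : A[X] →+* A[X] :=
  eval₂RingHom' C (X + C (algebraMap K A l)) fun r => comm_XC l r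

theorem tau_apply (l : K) (w : A[X]) : tau A l w = w.comp (X + C (algebraMap K A l)) := rfl

theorem tau_C (l : K) (r : A) : tau A l (C r) = C r := by rw [tau_apply, C_comp]

theorem tau_X (l : K) : tau A l X = X + C (algebraMap K A l) := by rw [tau_apply, X_comp]

theorem tau_neg (l : K) (w : A[X]) : tau A (-l) (tau A l w) = w := by
  have : (tau A (-l)).comp (tau A l) = RingHom.id _ := by
    apply Polynomial.ringHom_ext
    · intro r
      simp [tau_C]
    · simp [tau_C, tau_X]
  exact congrArg (fun f : A[X] →+* A[X] => f w) this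

theorem tau_inj (l : K) : Function.Injective (tau A l) :=
  Function.LeftInverse.injective (tau_neg l)

theorem ev_tau (l : K) (Q : K[X][X]) (z : A[X]) :
    ev (Q.map (compRingHom (X + C l))) (tau A l z) = tau A l (ev Q z) := by
  unfold ev
  rw [eval₂_map, hom_eval₂]
  congr 1
  apply Polynomial.ringHom_ext
  · intro c
    simp [tau_C]
  · simp [tau_X]

end

theorem st_TRS : ST_TRS.{u} := by
  intro K A _ _ _ z P l m h
  constructor
  · refine ⟨h.mon.map _, ?_, ?_⟩
    · rw [← tau_apply, ev_tau, h.root, map_zero]
    · intro Q hQ h0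
      rw [h.mon.degree_map] at hQ
      rw [← tau_apply] at h0
      have hQQ : Q = (Q.map (compRingHom (X + C (-l)))).map (compRingHom (X + C l)) := by
        rw [Polynomial.map_map]
        have : (compRingHom (X + C l)).comp (compRingHom (X + C (-l))) = RingHom.id K[X] := by
          apply Polynomial.ringHom_ext
          · intro r; simp
          · simp
        rw [this, Polynomial.map_id]
      rw [hQQ, ev_tau] at h0
      have h1 := tau_inj l (h0.trans (map_zero _).symm)
      have h2 := h.ind _ (degree_map_le.trans_lt hQ) h1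
      rw [hQQ, h2, Polynomial.map_zero]
  · have hT : ∀ Q : K[X][X], Q.comp (X + C (C m)) = taylor (C m) Q := fun Q => rfl
    have e1 : ev (X + C (C m)) (z - C (algebraMap K A m)) = z := by
      rw [ev_add, ev_C]
      unfold ev ca
      rw [eval₂_X, map_C, sub_add_cancel]
    have e2 : ev (X + C (C (-m))) z = z - C (algebraMap K A m) := by
      rw [ev_add, ev_C]
      unfold ev ca
      rw [eval₂_X, map_C, map_neg, C_neg, ← sub_eq_add_neg]
    refine ⟨h.mon.comp_X_add_C _, ?_, ?_⟩
    · rw [ev_comp, e1, h.root]
    · intro Q hQ h0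
      rw [hT, degree_taylor] at hQ
      have h3 : Q.comp (X + C (C (-m))) = 0 := by
        apply h.ind
        · have : Q.comp (X + C (C (-m))) = taylor (C (-m)) Q := rfl
          rw [this, degree_taylor]
          exact hQ
        · rw [ev_comp, e2, h0]
      have h4 : taylor (C (-m)) Q = 0 := h3
      exact (taylor_injective (C (-m))) (h4.trans (map_zero _).symm)

end Pool.Agent.Helper40.KZ
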