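import Pool.Agent.Helper40.KZ.TRS
import Pool.Agent.Helper40.KZ.IN2

/-!
# Specialisations
-/

set_option autoImplicit false

namespace Pool.Agent.Helper40.KZ

open Pool.Agent.Helper91.KZ Polynomial TensorProduct

universe u

variable {K A : Type u} [Field K] [Ring A] [Algebra K A]

/-- specialisation as a ring homomorphism -/
noncomputable def vlH (A : Type u) [Ring A] [Algebra K A] (l : K) : A[X] →+* A :=
  eval₂RingHom' (RingHom.id A) (algebraMap K A l) fun a => Algebra.commute_algebraMap_right l a

theorem vlH_apply (l : K) (z : A[X]) : vlH A l z = vl l z := rfl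

theorem vl_C (l : K) (a : A) : vl l (C a) = a := by
  unfold vl; rw [eval_C]

theorem vl_pow (l : K) (z : A[X]) (j : ℕ) : vl l (z ^ j) = vl l z ^ j := by
  rw [← vlH_apply, map_pow, vlH_apply]

theorem fp_eval (f : A →ₗ[K] K) (w : A[X]) (l : K) : (fp f w).eval l = f (vl l w) := by
  induction w using Polynomial.induction_on' with
  | add p q hp hq =>
    rw [fp_add, eval_add, hp, hq, ← map_add]
    unfold vl
    rw [eval_add]
  | monomial m a =>
    have e1 : fp f (monomial m a) = monomial m (f a) := by
      ext k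
      rw [fp_coeff, coeff_monomial, coeff_monomial]
      split_ifs
      · rfl
      · exact map_zero _
    unfold vl
    rw [e1, eval_monomial, eval_monomial, ← map_pow, ← Algebra.commutes, ← Algebra.smul_def,
      map_smul, smul_eq_mul, mul_comm]

theorem vl_ev (l : K) (Q : K[X][X]) (z : A[X]) :
    vl l (ev Q z) = aeval (vl l z) (Q.map (evalRingHom l)) := by
  have h : (vlH A l).comp (evH z) =
      ((aeval (vl l z) : K[X] →ₐ[K] A) : K[X] →+* A).comp (mapRingHom (evalRingHom l)) := by
    apply Polynomial.ringHom_ext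
    · intro c
      simp only [RingHom.comp_apply, evH_apply, ev_C, coe_mapRingHom, map_C, RingHom.coe_coe,
        aeval_C, vlH_apply]
      unfold vl ca
      rw [coe_evalRingHom, eval_map, eval₂_at_apply]
    · simp only [RingHom.comp_apply, evH_apply, coe_mapRingHom, map_X, RingHom.coe_coe, aeval_X,
        vlH_apply]
      unfold ev
      rw [eval₂_X]
  exact congrArg (fun g : K[X][X] →+* A => g Q) h

/-- independence of the powers -/
theorem indep (z : A[X]) (n : ℕ) (h : ∀ Q : K[X][X], Q.degree < n → ev Q z = 0 → Q = 0)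
    (c : Fin n → K[X]) (hc : ∑ i, ca A (c i) * z ^ (i : ℕ) = 0) : c = 0 := by
  have h1 := h (∑ i, C (c i) * X ^ (i : ℕ)) (degree_sum_fin_lt c) ?_
  · funext i
    have h2 := congrArg (fun Q : K[X][X] => Q.coeff i) h1
    simp only [finsetSum_coeff, coeff_C_mul, coeff_X_pow, coeff_zero] at h2
    rw [Finset.sum_eq_single i] at h2
    · simpa using h2
    · intro j _ hj
      rw [if_neg (fun he => hj (Fin.ext he.symm)), mul_zero]
    · intro hi
      exact absurd (Finset.mem_univ i) hi
  · rw [← evH_apply, map_sum, ← hc]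
    refine Finset.sum_congr rfl fun i _ => ?_
    rw [map_mul, map_pow, evH_apply, evH_apply, ev_C]
    congr 2
    unfold ev
    rw [eval₂_X]

/-- nondegenerate specialisations have no relations of small degree -/
theorem nondeg (z : A[X]) (n : ℕ) (f : Fin n → (A →ₗ[K] K)) (l : K)
    (h : ((Matrix.of fun i (j : Fin n) => fp (f i) (z ^ (j : ℕ))).det).eval l ≠ 0) (p : K[X])
    (hp : p.natDegree < n) (h0 : aeval (vl l z) p = 0) : p = 0 := by
  have hM : ((evalRingHom l).mapMatrix
      (Matrix.of fun i (j : Fin n) => fp (f i) (z ^ (j : ℕ)))).det ≠ 0 := by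
    rw [← RingHom.map_det]
    exact h
  have hv := Matrix.eq_zero_of_mulVec_eq_zero (v := fun j : Fin n => p.coeff j) hM ?_
  · ext i
    rw [coeff_zero]
    by_cases hi : i < n
    · exact congrFun hv ⟨i, hi⟩
    · exact coeff_eq_zero_of_natDegree_lt (by omega)
  · funext i
    rw [Matrix.mulVec, dotProduct, Pi.zero_apply]
    rw [aeval_eq_sum_range' hp] at h0
    have h1 := congrArg (f i) h0
    rw [map_sum, map_zero, Finset.sum_range] at h1
    rw [← h1]
    refine Finset.sum_congr rfl fun j _ => ?_
    rw [map_smul, smul_eq_mul, mul_comm, ← vl_pow, ← fp_eval]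
    rfl

end Pool.Agent.Helper40.KZ
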